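import Mathlib
import Pool.Agent.Lib.Helper58.MZVGrowth
import Pool.Agent.Lib.H98MZV.Order

/-!
# Growth order of the dimensions of the spaces of multiple zeta values

Let `𝒵_n` be the rational span of the multiple zeta values of weight `n`, `D_n = dim_ℚ 𝒵_n`, and
let `F` be the field generated over `ℚ` by all numbers `x / π^w` with `x ∈ 𝒵_w`.

* Lattice points: if `u_i = x_i / π^{w_i}` (`x_i ∈ 𝒵_{w_i}`, `i ∈ I`) are algebraically independent
  over `ℚ` and the `y_j / π^{v_j}` (`y_j ∈ 𝒵_{v_j}`, `j ∈ J`) are linearly independent over the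
  field `ℚ(u_i : i ∈ I)`, then for every `n` the dimension `D_n` is at least the number of pairs
  `(e, j)` such that `n - v_j - ∑ e_i w_i` is an even natural number.
* If `I` has `r` elements, then `D_n ≥ c n^r` for some `c > 0` and all large `n`; moreover
  `D_n / n^r → ∞`, unless `F` is a finite extension of `ℚ(u_1, …, u_r)`.
* Without any hypothesis, for every `r`: either `D_n / n^r → ∞`, or `F` has a transcendence basis
  consisting of `s ≤ r` numbers `u_i = x_i / π^{w_i}`, and if `s = r` then `F` is a finite extension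
  of `ℚ(u_1, …, u_s)` (so that `F` is finitely generated).
-/

set_option autoImplicit false

namespace Pool.Agent.Results.MP_56e040_nt.GrowthOrder

open Filter Topology Module IntermediateField

/-- The multiple zeta value `ζ(s_1, …, s_k) = ∑_{m_1 > … > m_k ≥ 1} ∏ m_i^{-s_i}`. -/
noncomputable def mzv {k : ℕ} (s : Fin k → ℕ) : ℝ :=
  ∑' m : {m : Fin k → ℕ // StrictAnti m ∧ ∀ i, 0 < m i}, ∏ i, (((m.1 i : ℕ) : ℝ) ^ (s i))⁻¹

/-- `𝒵_n`: the `ℚ`-span of the multiple zeta values of all admissible indices of weight `n`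
(entries at least `1`, first entry at least `2` when the index is nonempty). -/
noncomputable def Z (n : ℕ) : Submodule ℚ ℝ :=
  Submodule.span ℚ {x : ℝ | ∃ k : ℕ, ∃ s : Fin k → ℕ,
    (∀ i, 1 ≤ s i) ∧ (∀ h : 0 < k, 2 ≤ s ⟨0, h⟩) ∧ (∑ i, s i) = n ∧ x = mzv s}

/-- `D_n = dim_ℚ 𝒵_n`. -/
noncomputable def D (n : ℕ) : ℕ := finrank ℚ (Z n)

/-- `F`: the field generated over `ℚ` by all numbers `x / π^w` with `x ∈ 𝒵_w`. -/
noncomputable def F : IntermediateField ℚ ℝ :=
  adjoin ℚ {y : ℝ | ∃ w, ∃ x ∈ Z w, y = x / Real.pi ^ w}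

/-- The field `ℚ(x_i / π^{w_i} : i ∈ I)`. -/
noncomputable def U {I : Type} (w : I → ℕ) (x : I → ℝ) : IntermediateField ℚ ℝ :=
  adjoin ℚ (Set.range fun i => x i / Real.pi ^ (w i))

theorem result :
    (∀ n, FiniteDimensional ℚ (Z n)) ∧
    -- lattice points
    (∀ (I J : Type) (w : I → ℕ) (x : I → ℝ) (v : J → ℕ) (y : J → ℝ),
      (∀ i, x i ∈ Z (w i)) → (∀ j, y j ∈ Z (v j)) →
      AlgebraicIndependent ℚ (fun i => x i / Real.pi ^ (w i)) →
      LinearIndependent (U w x) (fun j => y j / Real.pi ^ (v j)) →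
      ∀ (n : ℕ) (T : Finset ((I →₀ ℕ) × J)),
        (∀ p ∈ T, ∃ a : ℕ, n = 2 * a + v p.2 + p.1.sum fun i k => k * w i) → T.card ≤ D n) ∧
    -- growth from `r` algebraically independent numbers
    (∀ (r : ℕ) (w : Fin r → ℕ) (x : Fin r → ℝ), (∀ i, x i ∈ Z (w i)) →
      AlgebraicIndependent ℚ (fun i => x i / Real.pi ^ (w i)) →
      (∃ c : ℝ, 0 < c ∧ ∀ᶠ n : ℕ in atTop, c * (n : ℝ) ^ r ≤ (D n : ℝ)) ∧
      (Tendsto (fun n : ℕ => (D n : ℝ) / (n : ℝ) ^ r) atTop atTop ∨
        ∃ h : U w x ≤ F, FiniteDimensional (U w x) (extendScalars h))) ∧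
    -- the same without hypothesis
    (∀ r : ℕ, Tendsto (fun n : ℕ => (D n : ℝ) / (n : ℝ) ^ r) atTop atTop ∨
      ∃ (s : ℕ) (w : Fin s → ℕ) (x : Fin s → ℝ), s ≤ r ∧ (∀ i, x i ∈ Z (w i)) ∧
        AlgebraicIndependent ℚ (fun i => x i / Real.pi ^ (w i)) ∧
        ∃ h : U w x ≤ F, Algebra.IsAlgebraic (U w x) (extendScalars h) ∧
          (s = r → FiniteDimensional (U w x) (extendScalars h))) := by
  refine ⟨fun n => (inferInstance : Module.Finite ℚ (Helper58.MZV.Z n)), ?_, ?_,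
    fun r => H98MZV.trichotomy r⟩
  · intro I J w x v y hx hy hind hli n T hT
    refine H98MZV.master w x hx v y hy hind hli n T fun p hp => ?_
    obtain ⟨a, ha⟩ := hT p hp
    exact ⟨a, ha.symm⟩
  · intro r w x hx hind
    refine ⟨Helper58.MZV.growth w x hx hind, ?_⟩
    rcases H98MZV.order_dichotomy w x hx hind with h | h
    · exact Or.inl h
    · exact Or.inr ⟨H98MZV.EE_le w x hx, h⟩

end Pool.Agent.Results.MP_56e040_nt.GrowthOrder
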