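import Mathlib
import Pool.Agent.Lib.Helper58.MZVGrowth

/-!
# A dichotomy for the dimensions of the spaces of multiple zeta values

Let `𝒵_n` be the rational span of the multiple zeta values of weight `n` and
`D_n = dim 𝒵_n`. Unconditionally, either there is a number field `K ⊂ ℝ` such that every
even-weight element `x ∈ 𝒵_{2n}` lies in `K π^{2n}`, every odd-weight element `x ∈ 𝒵_{2n+3}`
lies in `K ζ(3) π^{2n}`, `(ζ(3)/π³)² ∈ K`, and `D_n = [K : ℚ]` for all large `n`;
or `D_n → ∞`, and then `D_n ≥ c n` for some `c > 0` and all large `n` unless every number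
`x / π^n` with `x ∈ 𝒵_n` is algebraic.
-/

set_option autoImplicit false

namespace Pool.Agent.Results.MP_56e040_nt.NumberFieldDichotomy

open Filter Topology Module

/-- The multiple zeta value `ζ(s_1, …, s_k) = ∑_{m_1 > … > m_k ≥ 1} ∏ m_i^{-s_i}`. -/
noncomputable def mzv {k : ℕ} (s : Fin k → ℕ) : ℝ :=
  ∑' m : {m : Fin k → ℕ // StrictAnti m ∧ ∀ i, 0 < m i}, ∏ i, (((m.1 i : ℕ) : ℝ) ^ (s i))⁻¹

/-- `𝒵_n`: the `ℚ`-span of the multiple zeta values of all admissible indices of weight `n`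
(entries at least `1`, first entry at least `2` when the index is nonempty). -/
noncomputable def Z (n : ℕ) : Submodule ℚ ℝ :=
  Submodule.span ℚ {x : ℝ | ∃ k : ℕ, ∃ s : Fin k → ℕ,
    (∀ i, 1 ≤ s i) ∧ (∀ h : 0 < k, 2 ≤ s ⟨0, h⟩) ∧ (∑ i, s i) = n ∧ x = mzv s}

/-- Every `𝒵_n` is finite dimensional, and either (first alternative) all multiple zeta values,
divided by `π^{2n}` in even weight `2n` and by `ζ(3) π^{2n}` in odd weight `2n + 3`, lie in one
real number field `K`, which also contains `(ζ(3)/π³)²`, and `dim 𝒵_n = [K : ℚ]` for all large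
`n`; or (second alternative) `dim 𝒵_n → ∞`, and the growth is at least linear unless all the
numbers `x / π^n` with `x ∈ 𝒵_n` are algebraic over `ℚ`. -/
theorem result :
    (∀ n, FiniteDimensional ℚ (Z n)) ∧
    ((∃ (K : IntermediateField ℚ ℝ) (N : ℕ), FiniteDimensional ℚ K ∧
        (mzv ![3] / Real.pi ^ 3) ^ 2 ∈ K ∧
        (∀ n, ∀ x ∈ Z (2 * n), x / Real.pi ^ (2 * n) ∈ K) ∧
        (∀ n, ∀ x ∈ Z (2 * n + 3), x / (mzv ![3] * Real.pi ^ (2 * n)) ∈ K) ∧
        ∀ n, N ≤ n → finrank ℚ (Z n) = finrank ℚ K) ∨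
      (Tendsto (fun n => finrank ℚ (Z n)) atTop atTop ∧
        ((∀ n, ∀ x ∈ Z n, IsAlgebraic ℚ (x / Real.pi ^ n)) ∨
          ∃ c : ℝ, 0 < c ∧ ∀ᶠ n : ℕ in atTop, c * (n : ℝ) ≤ (finrank ℚ (Z n) : ℝ)))) := by
  have h3 : mzv ![3] = Helper58.MZV.z3 := by
    have h := Helper58.MZV.mzv_eq ![3] (by
      have : List.ofFn ![3] = [3] := by simp
      rw [this]
      exact Helper58.MZV.adm_single (by norm_num))
    have e : List.ofFn ![3] = [3] := by simp
    rw [e] at h
    exact h
  refine ⟨fun n => (inferInstance : Module.Finite ℚ (Helper58.MZV.Z n)), ?_⟩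
  rw [h3]
  rcases Helper58.MZV.dichotomy with h | h
  · exact Or.inl h
  · refine Or.inr ⟨h, ?_⟩
    by_cases halg : ∀ n, ∀ x ∈ Z n, IsAlgebraic ℚ (x / Real.pi ^ n)
    · exact Or.inl halg
    · right
      push Not at halg
      obtain ⟨w, x, hx, hnot⟩ := halg
      have hind : AlgebraicIndependent ℚ (fun _ : Fin 1 => x / Real.pi ^ w) :=
        algebraicIndependent_unique_type_iff.mpr hnot
      obtain ⟨c, hc, hev⟩ := Helper58.MZV.growth (fun _ : Fin 1 => w) (fun _ => x)
        (fun _ => hx) hind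
      refine ⟨c, hc, hev.mono fun n hn => ?_⟩
      rw [pow_one] at hn
      exact hn

end Pool.Agent.Results.MP_56e040_nt.NumberFieldDichotomy
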